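import Pool.Agent.Lib.MP_95a70f_lc.Force

/-!
Adding any positive number of random reals (one is enough) forces the failure of the strong
polarized relation at the dominating number.
-/

open MeasureTheory Pool.Agent.Lib.MP_e0f6ac_lc Pool.Agent.Lib.MP_95a70f_lc

theorem Pool.Agent.Results.MP_95a70f_lc.OneRandomReal.result (L : Type) [Nonempty L]
    [MeasurableSpace (L × ℕ → Bool)] (μ : Measure (L × ℕ → Bool)) [IsProbabilityMeasure μ]
    (hm : ∀ i, MeasurableSet {x : L × ℕ → Bool | x i = true})
    (hμ : ∀ (s : Finset (L × ℕ)) (y : L × ℕ → Bool),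
      μ {x | ∀ i ∈ s, x i = y i} = 2⁻¹ ^ s.card) :
    ⨆ K, isD (extension (MAlg μ)) K ⊓ (pol (extension (MAlg μ)) K)ᶜ = ⊤ := by
  classical
  obtain ⟨l⟩ := ‹Nonempty L›
  refine main (randLike (D := fun m => {x | x (l, m) = true}) (fun m => hm _) (fun m => ?_)
    fun m n hmn => ?_)
  · have h := hμ {(l, m)} fun _ => true
    simp only [Finset.mem_singleton, forall_eq, Finset.card_singleton, pow_one] at h
    rw [measureReal_def, h]
    simp
  · have h := hμ {(l, m), (l, n)} fun _ => true
    rw [Finset.card_pair (by simpa using hmn)] at h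
    simp only [Finset.mem_insert, Finset.mem_singleton, forall_eq_or_imp, forall_eq] at h
    have h2 : {x : L × ℕ → Bool | x (l, m) = true} ∩ {x | x (l, n) = true} =
        {x | x (l, m) = true ∧ x (l, n) = true} := rfl
    rw [measureReal_def, h2, h]
    simp
    norm_num
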